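import Mathlib

set_option autoImplicit false

/-! Project LL (MP_35f602_nt, S16557): the sign of the penultimate Lucas-Lehmer residue.
Curves `y² = x³ + a x² + b x`; the curve with complex multiplication by `√-3` is
`y² = x³ + 6 x² - 3 x`. -/

namespace Pool.Agent.W670.LL

open WeierstrassCurve

/-- the curve `y² = x³ + a x² + b x` -/
abbrev Cv {K : Type*} [Field K] (a b : K) : WeierstrassCurve.Affine K :=
  ⟨0, a, 0, b, 0⟩

/-- its points -/
abbrev Pt {K : Type*} [Field K] (a b : K) : Type _ := (Cv a b).Point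

section basic
variable {K : Type*} [Field K] {a b : K}

theorem equation_iff' (x y : K) : (Cv a b).Equation x y ↔ y ^ 2 = x ^ 3 + a * x ^ 2 + b * x := by
  rw [Affine.equation_iff]; simp

theorem eqn {x y : K} (h : (Cv a b).Nonsingular x y) : y ^ 2 = x ^ 3 + a * x ^ 2 + b * x :=
  (equation_iff' x y).1 h.1

/-- every solution is a nonsingular point -/
theorem nons (h2 : (2 : K) ≠ 0) (hb : b ≠ 0) (hab : a ^ 2 - 4 * b ≠ 0) {x y : K}
    (h : y ^ 2 = x ^ 3 + a * x ^ 2 + b * x) : (Cv a b).Nonsingular x y := by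
  rw [Affine.nonsingular_iff]
  refine ⟨(equation_iff' x y).2 h, ?_⟩
  by_contra hc
  push Not at hc
  obtain ⟨h3, h4⟩ := hc
  have hy : y = 0 := by
    have : 2 * y = 0 := by linear_combination h4
    exact (mul_eq_zero.1 this).resolve_left h2
  subst hy
  have e1 : 3 * x ^ 2 + 2 * a * x + b = 0 := by linear_combination -h3
  have e2 : x * (x ^ 2 + a * x + b) = 0 := by linear_combination -h
  rcases mul_eq_zero.1 e2 with hx | hx
  · subst hx; apply hb; linear_combination e1
  · have e3 : x * (2 * x + a) = 0 := by linear_combination e1 - hx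
    rcases mul_eq_zero.1 e3 with hx' | hx'
    · subst hx'; apply hb; linear_combination hx
    · apply hab
      linear_combination (-4) * hx + (2 * x + a) * hx'

variable [DecidableEq K]

theorem neg_mk {x y : K} (h : (Cv a b).Nonsingular x y) :
    ∃ h', -(Affine.Point.some x y h) = Affine.Point.some x (-y) h' := by
  rw [Affine.Point.neg_some]
  have : (Cv a b).negY x y = -y := by simp [Affine.negY]
  have h3 := (Affine.nonsingular_neg x y).2 h
  rw [this] at h3
  simp only [this]
  exact ⟨h3, trivial⟩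

/-- addition of two points with different abscissa -/
theorem add_mk {x₁ y₁ x₂ y₂ : K} (h₁ : (Cv a b).Nonsingular x₁ y₁)
    (h₂ : (Cv a b).Nonsingular x₂ y₂) (hx : x₁ ≠ x₂) (l x₃ y₃ : K)
    (hl : l * (x₁ - x₂) = y₁ - y₂) (hx₃ : x₃ = l ^ 2 - a - x₁ - x₂)
    (hy₃ : y₃ = -(y₁ + l * (x₃ - x₁))) :
    ∃ h₃, Affine.Point.some x₁ y₁ h₁ + Affine.Point.some x₂ y₂ h₂ =
      Affine.Point.some x₃ y₃ h₃ := by
  have hl' : l = (Cv a b).slope x₁ x₂ y₁ y₂ := by
    rw [Affine.slope_of_X_ne hx, eq_div_iff (sub_ne_zero.2 hx)]; exact hl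
  rw [Affine.Point.add_of_X_ne hx]
  have e1 : (Cv a b).addX x₁ x₂ ((Cv a b).slope x₁ x₂ y₁ y₂) = x₃ := by
    rw [← hl', hx₃]; simp [Affine.addX]
  have e2 : (Cv a b).addY x₁ x₂ y₁ ((Cv a b).slope x₁ x₂ y₁ y₂) = y₃ := by
    rw [← hl', hy₃, hx₃]; simp [Affine.addY, Affine.negAddY, Affine.addX, Affine.negY]; ring
  have h3 := Affine.nonsingular_add h₁ h₂ (fun hxy => hx hxy.1)
  rw [e1, e2] at h3
  simp only [e1, e2]
  exact ⟨h3, trivial⟩

/-- doubling -/
theorem dbl_mk {x y : K} (h : (Cv a b).Nonsingular x y) (h2 : (2 : K) ≠ 0) (hy : y ≠ 0)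
    (l x₃ y₃ : K) (hl : l * (2 * y) = 3 * x ^ 2 + 2 * a * x + b) (hx₃ : x₃ = l ^ 2 - a - 2 * x)
    (hy₃ : y₃ = -(y + l * (x₃ - x))) :
    ∃ h₃, Affine.Point.some x y h + Affine.Point.some x y h =
      Affine.Point.some x₃ y₃ h₃ := by
  have hny : y ≠ (Cv a b).negY x y := by
    simp only [Affine.negY, zero_mul, sub_zero]
    intro h'
    apply hy
    have : 2 * y = 0 := by linear_combination h'
    exact (mul_eq_zero.1 this).resolve_left h2
  have hl' : l = (Cv a b).slope x x y y := by
    rw [Affine.slope_of_Y_ne rfl hny, eq_div_iff]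
    · simp only [Affine.negY]; linear_combination hl
    · simp only [Affine.negY]
      intro h'
      apply hy
      have : 2 * y = 0 := by linear_combination h'
      exact (mul_eq_zero.1 this).resolve_left h2
  rw [Affine.Point.add_self_of_Y_ne hny]
  have e1 : (Cv a b).addX x x ((Cv a b).slope x x y y) = x₃ := by
    rw [← hl', hx₃]; simp [Affine.addX]; ring
  have e2 : (Cv a b).addY x x y ((Cv a b).slope x x y y) = y₃ := by
    rw [← hl', hy₃, hx₃]; simp [Affine.addY, Affine.negAddY, Affine.addX, Affine.negY]; ring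
  have h3 := Affine.nonsingular_add h h (fun hxy => hny hxy.2)
  rw [e1, e2] at h3
  simp only [e1, e2]
  exact ⟨h3, trivial⟩

/-- `P + P = 0` if the ordinate vanishes -/
theorem dbl_zero {x : K} (h : (Cv a b).Nonsingular x 0) :
    Affine.Point.some x 0 h + Affine.Point.some x 0 h = 0 := by
  apply Affine.Point.add_self_of_Y_eq
  simp [Affine.negY]

end basic

end Pool.Agent.W670.LL
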