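import Pool.Agent.W670.LL.Defs

set_option autoImplicit false

/-! Statements (as `Prop`s) of the parts of project LL. -/

namespace Pool.Agent.W670.LL

open WeierstrassCurve

/-! ## The endomorphism `√-3` of `y² = x³ + 6x² - 3x` -/

/-- abscissa of `√-3 (x, y)` -/
noncomputable def sx {K : Type*} [Field K] (x : K) : K := -(x * (x + 3) ^ 2) / (3 * (x - 1) ^ 2)

/-- ordinate of `ρ (x, y)`, `ρ² = -3` -/
noncomputable def sy {K : Type*} [Field K] (ρ x y : K) : K :=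
  -(y * (x + 3) * (x ^ 2 - 6 * x - 3)) / (3 * ρ * (x - 1) ^ 3)

/-- `s` is the map `R ↦ √-3 R` (with derivative `ρ`) -/
def IsS {K : Type*} [Field K] (ρ : K) (s : Pt (6 : K) (-3) → Pt (6 : K) (-3)) : Prop :=
  s 0 = 0 ∧ (∀ y h, s (Affine.Point.some 1 y h) = 0) ∧
    ∀ x y h, x ≠ 1 → ∃ h', s (Affine.Point.some x y h) = Affine.Point.some (sx x) (sy ρ x y) h'

/-- S1: generic additivity, coordinates -/
def S_S1 : Prop := ∀ (K : Type) [Field K] (ρ : K), (2 : K) ≠ 0 → (3 : K) ≠ 0 → ρ ^ 2 = -3 →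
  ∀ x₁ y₁ x₂ y₂ l x₃ y₃ L : K, y₁ ^ 2 = x₁ ^ 3 + 6 * x₁ ^ 2 - 3 * x₁ →
    y₂ ^ 2 = x₂ ^ 3 + 6 * x₂ ^ 2 - 3 * x₂ → x₁ ≠ x₂ → l * (x₁ - x₂) = y₁ - y₂ →
    x₃ = l ^ 2 - 6 - x₁ - x₂ → y₃ = -(y₁ + l * (x₃ - x₁)) → x₁ ≠ 1 → x₂ ≠ 1 → x₃ ≠ 1 →
    sx x₁ ≠ sx x₂ → L * (sx x₁ - sx x₂) = sy ρ x₁ y₁ - sy ρ x₂ y₂ →
    sx x₃ = L ^ 2 - 6 - sx x₁ - sx x₂ ∧ sy ρ x₃ y₃ = -(sy ρ x₁ y₁ + L * (sx x₃ - sx x₁))

/-- S2: translation by a kernel point, coordinates: `(x,y) + (1,ν)`, `ν² = 4` -/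
def S_S2 : Prop := ∀ (K : Type) [Field K] (ρ : K), (2 : K) ≠ 0 → (3 : K) ≠ 0 → ρ ^ 2 = -3 →
  ∀ x y ν l x₃ y₃ : K, y ^ 2 = x ^ 3 + 6 * x ^ 2 - 3 * x → ν ^ 2 = 4 → x ≠ 1 →
    l * (x - 1) = y - ν → x₃ = l ^ 2 - 6 - x - 1 → y₃ = -(y + l * (x₃ - x)) → x₃ ≠ 1 →
    sx x₃ = sx x ∧ sy ρ x₃ y₃ = sy ρ x y

/-- S3: the endomorphism exists -/
def S_S3 : Prop := ∀ (K : Type) [Field K] [DecidableEq K] [IsAlgClosed K] (ρ : K), (2 : K) ≠ 0 →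
  (3 : K) ≠ 0 → ρ ^ 2 = -3 → ∃ s : Pt (6 : K) (-3) →+ Pt (6 : K) (-3), IsS ρ s

/-- S4: its square is `-3` -/
def S_S4 : Prop := ∀ (K : Type) [Field K] [DecidableEq K] [IsAlgClosed K] (ρ : K), (2 : K) ≠ 0 →
  (3 : K) ≠ 0 → ρ ^ 2 = -3 → ∀ s : Pt (6 : K) (-3) →+ Pt (6 : K) (-3), IsS ρ s →
    ∀ R, s (s R) = (-3 : ℤ) • R

/-! ## The functions `r`: square roots of `x(2R) - e` -/

/-- `r(R) = ((x-e)² - δ)/(2y)` -/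
noncomputable def rr {K : Type*} [Field K] {a b : K} (e δ : K) : Pt a b → K
  | .zero => 0
  | .some x y _ => ((x - e) ^ 2 - δ) / (2 * y)

/-- the roots `0, e₁, e₃` of `x³ + a x² + b x` -/
structure Roots {K : Type*} [Field K] (a b e₁ e₃ : K) : Prop where
  two : (2 : K) ≠ 0
  ne1 : e₁ ≠ 0
  ne3 : e₃ ≠ 0
  ne : e₁ ≠ e₃
  ha : a = -(e₁ + e₃)
  hb : b = e₁ * e₃

section
variable {K : Type*} [Field K] {a b : K}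

/-- `r₃` -/
noncomputable def r3 (e₁ e₃ : K) : Pt a b → K := rr e₃ (e₃ * (e₃ - e₁))
/-- `r₁` -/
noncomputable def r1 (e₁ e₃ : K) : Pt a b → K := rr e₁ (e₁ * (e₁ - e₃))
/-- `r₂` -/
noncomputable def r2 (e₁ e₃ : K) : Pt a b → K := rr 0 (e₁ * e₃)

end

/-- doubling and `r` -/
def S_RSQ : Prop := ∀ (K : Type) [Field K] [DecidableEq K] (a b e₁ e₃ : K), Roots a b e₁ e₃ →
  ∀ (x y : K) (h : (Cv a b).Nonsingular x y), y ≠ 0 →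
    (∃ x₂ y₂ h₂, (Affine.Point.some x y h : Pt a b) + Affine.Point.some x y h =
        Affine.Point.some x₂ y₂ h₂ ∧
      x₂ - e₃ = r3 e₁ e₃ (Affine.Point.some x y h : Pt a b) ^ 2 ∧
      x₂ - e₁ = r1 e₁ e₃ (Affine.Point.some x y h : Pt a b) ^ 2 ∧
      x₂ = r2 e₁ e₃ (Affine.Point.some x y h : Pt a b) ^ 2 ∧
      y₂ = r1 e₁ e₃ (Affine.Point.some x y h : Pt a b) *
        r2 e₁ e₃ (Affine.Point.some x y h : Pt a b) *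
        r3 e₁ e₃ (Affine.Point.some x y h : Pt a b)) ∧
    (∀ r₁ r₂ r₃ : K, r₁ = r1 e₁ e₃ (Affine.Point.some x y h : Pt a b) →
      r₂ = r2 e₁ e₃ (Affine.Point.some x y h : Pt a b) →
      r₃ = r3 e₁ e₃ (Affine.Point.some x y h : Pt a b) →
      x - e₃ = (r₃ + r₁) * (r₃ + r₂) ∧ x - e₁ = (r₁ + r₃) * (r₁ + r₂) ∧
      x = (r₂ + r₁) * (r₂ + r₃) ∧ y = (r₁ + r₂) * (r₂ + r₃) * (r₃ + r₁))

/-- the addition formula for `r` -/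
def S_RADD : Prop := ∀ (K : Type) [Field K] [DecidableEq K] (a b e₁ e₃ : K), Roots a b e₁ e₃ →
  ∀ (x y x' y' : K) (h : (Cv a b).Nonsingular x y) (h' : (Cv a b).Nonsingular x' y'), y ≠ 0 →
    y' ≠ 0 → ∀ R R' : Pt a b, R = Affine.Point.some x y h → R' = Affine.Point.some x' y' h' →
    r3 e₁ e₃ R' ^ 2 ≠ r3 e₁ e₃ R ^ 2 →
    (∃ x'' y'' h'', R + R' = Affine.Point.some x'' y'' h'' ∧ y'' ≠ 0) ∧
    r3 e₁ e₃ (R + R') = (r3 e₁ e₃ R * r1 e₁ e₃ R' * r2 e₁ e₃ R' -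
      r3 e₁ e₃ R' * r1 e₁ e₃ R * r2 e₁ e₃ R) / (r3 e₁ e₃ R' ^ 2 - r3 e₁ e₃ R ^ 2) ∧
    r1 e₁ e₃ (R + R') = (r1 e₁ e₃ R * r3 e₁ e₃ R' * r2 e₁ e₃ R' -
      r1 e₁ e₃ R' * r3 e₁ e₃ R * r2 e₁ e₃ R) / (r3 e₁ e₃ R' ^ 2 - r3 e₁ e₃ R ^ 2) ∧
    r2 e₁ e₃ (R + R') = (r2 e₁ e₃ R * r3 e₁ e₃ R' * r1 e₁ e₃ R' -
      r2 e₁ e₃ R' * r3 e₁ e₃ R * r1 e₁ e₃ R) / (r3 e₁ e₃ R' ^ 2 - r3 e₁ e₃ R ^ 2)

/-- translation by the points of order two -/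
def S_RT : Prop := ∀ (K : Type) [Field K] [DecidableEq K] (a b e₁ e₃ : K), Roots a b e₁ e₃ →
  ∀ (x y : K) (h : (Cv a b).Nonsingular x y), y ≠ 0 → ∀ R : Pt a b,
    R = Affine.Point.some x y h →
    (∀ h₃, r3 e₁ e₃ (R + Affine.Point.some e₃ 0 h₃) = r3 e₁ e₃ R ∧
      r1 e₁ e₃ (R + Affine.Point.some e₃ 0 h₃) = -r1 e₁ e₃ R ∧
      r2 e₁ e₃ (R + Affine.Point.some e₃ 0 h₃) = -r2 e₁ e₃ R) ∧
    (∀ h₁, r1 e₁ e₃ (R + Affine.Point.some e₁ 0 h₁) = r1 e₁ e₃ R ∧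
      r3 e₁ e₃ (R + Affine.Point.some e₁ 0 h₁) = -r3 e₁ e₃ R ∧
      r2 e₁ e₃ (R + Affine.Point.some e₁ 0 h₁) = -r2 e₁ e₃ R)

/-- halving -/
def S_RHALF : Prop := ∀ (K : Type) [Field K] [DecidableEq K] [IsAlgClosed K] (a b e₁ e₃ : K),
  Roots a b e₁ e₃ → ∀ S : Pt a b, ∃ R : Pt a b, R + R = S

/-- `r` and the endomorphism `s` -/
def S_RS : Prop := ∀ (K : Type) [Field K] [DecidableEq K] (e₁ e₃ ρ : K),
  Roots (6 : K) (-3) e₁ e₃ → (3 : K) ≠ 0 → ρ ^ 2 = -3 →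
  ∀ s : Pt (6 : K) (-3) → Pt (6 : K) (-3), IsS ρ s →
  ∀ (x y : K) (h : (Cv (6 : K) (-3)).Nonsingular x y), y ≠ 0 → x ≠ 1 → ∀ R : Pt (6 : K) (-3),
    R = Affine.Point.some x y h → ∀ x₂ : K, x₂ = r2 e₁ e₃ R ^ 2 → x₂ ≠ 1 →
    (∃ x' y' h', s R = Affine.Point.some x' y' h' ∧ y' ≠ 0) ∧
    r1 e₁ e₃ (s R) = r3 e₁ e₃ R * (x₂ + e₁) / (ρ * (x₂ - 1)) ∧
    r3 e₁ e₃ (s R) = r1 e₁ e₃ R * (x₂ + e₃) / (ρ * (x₂ - 1)) ∧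
    r2 e₁ e₃ (s R) = r2 e₁ e₃ R * (x₂ + 3) / (ρ * (x₂ - 1))

/-! ## The generic group: points of the twisted curve over `k(t)` -/

/-- `λ = t³ + 6t² - 3t` -/
noncomputable def lam (k : Type) [Field k] : RatFunc k :=
  RatFunc.X ^ 3 + 6 * RatFunc.X ^ 2 - 3 * RatFunc.X

/-- points over `k(t)` of the twist of `y² = x³ + 6x² - 3x` by `λ`; a point `(λX, λ²Y)`
corresponds to `λY² = X³ + 6X² - 3X`. -/
abbrev Gp (k : Type) [Field k] : Type := Pt (6 * lam k) (-3 * lam k ^ 2)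

/-- `R = (λX, λ²Y)` -/
def IsPt {k : Type} [Field k] (R : Gp k) (X Y : RatFunc k) : Prop :=
  ∃ h, R = Affine.Point.some (lam k * X) (lam k ^ 2 * Y) h

/-- the abscissa `X` -/
noncomputable def gx {k : Type} [Field k] : Gp k → RatFunc k
  | .zero => 0
  | .some x _ _ => x / lam k

/-- the ordinate `Y` -/
noncomputable def gy {k : Type} [Field k] : Gp k → RatFunc k
  | .zero => 0
  | .some _ y _ => y / lam k ^ 2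

/-- degree of a rational function -/
noncomputable def Hr {k : Type} [Field k] (f : RatFunc k) : ℕ :=
  max f.num.natDegree f.denom.natDegree

/-- degree of a point -/
noncomputable def HH {k : Type} [Field k] : Gp k → ℕ
  | .zero => 0
  | .some x _ _ => Hr (x / lam k)

/-- parallelogram law -/
def S_PAR : Prop := ∀ (k : Type) [Field k] [DecidableEq (RatFunc k)], (2 : k) ≠ 0 → (3 : k) ≠ 0 →
  ∀ R₁ R₂ : Gp k, HH (R₁ + R₂) + HH (R₁ - R₂) = 2 * HH R₁ + 2 * HH R₂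

/-- degree form on `ℤ P + ℤ S` -/
def S_DEG : Prop := ∀ (k : Type) [Field k] [DecidableEq (RatFunc k)], (2 : k) ≠ 0 → (3 : k) ≠ 0 →
  ∀ ρ : k, ρ ^ 2 = -3 → ∀ P S : Gp k, IsPt P RatFunc.X 1 →
    IsPt S (sx RatFunc.X) (sy (RatFunc.C ρ) RatFunc.X 1) →
    ∀ m n : ℤ, (HH (m • P + n • S) : ℤ) = m ^ 2 + 3 * n ^ 2

/-- the points `P`, `S` exist -/
def S_PTS : Prop := ∀ (k : Type) [Field k], (2 : k) ≠ 0 → (3 : k) ≠ 0 →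
  ∀ ρ : k, ρ ^ 2 = -3 → (∃ P : Gp k, IsPt P RatFunc.X 1) ∧
    (∃ S : Gp k, IsPt S (sx RatFunc.X) (sy (RatFunc.C ρ) RatFunc.X 1))

/-- the derivation `d/dt` exists -/
def S_D0 : Prop := ∀ (k : Type) [Field k],
  ∃ D : Derivation k (RatFunc k) (RatFunc k), D RatFunc.X = 1

/-- the invariant differential is additive -/
def S_DER : Prop := ∀ (k : Type) [Field k] [DecidableEq (RatFunc k)], (2 : k) ≠ 0 → (3 : k) ≠ 0 →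
  ∀ D : Derivation k (RatFunc k) (RatFunc k), ∀ R₁ R₂ : Gp k,
    D (gx (R₁ + R₂)) / gy (R₁ + R₂) = D (gx R₁) / gy R₁ + D (gx R₂) / gy R₂

/-- derivative zero -/
def S_QP : Prop := ∀ (q : ℕ) [Fact q.Prime] (D : Derivation (ZMod q) (RatFunc (ZMod q))
  (RatFunc (ZMod q))), D RatFunc.X = 1 → ∀ f : RatFunc (ZMod q), D f = 0 →
    ∃ g : RatFunc (ZMod q), f = g ^ q ∧ Hr f = q * Hr g

/-- the inseparable points of degree `q` -/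
def S_CL : Prop := ∀ (q : ℕ) [Fact q.Prime] [DecidableEq (RatFunc (ZMod q))], 3 < q →
  ¬ IsSquare (3 : ZMod q) → ∀ R Φ T : Gp (ZMod q), ∀ g : RatFunc (ZMod q), R ≠ 0 →
    gx R = g ^ q → Hr g = 1 → IsPt Φ (RatFunc.X ^ q) (lam (ZMod q) ^ ((q - 1) / 2)) →
    IsPt T 0 0 → R = Φ ∨ R = -Φ ∨ R = Φ + T ∨ R = -Φ + T

/-- specialisation of a point at `t = x₀` -/
def IsSp {k : Type} [Field k] {L : Type} [Field L] [Algebra k L] (x₀ y₀ : L) (R : Gp k)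
    (Q : Pt (6 : L) (-3)) : Prop :=
  (R = 0 ∧ Q = 0) ∨ ∃ X Y h, IsPt R X Y ∧ X.denom.aeval x₀ ≠ (0 : L) ∧
    Y.denom.aeval x₀ ≠ (0 : L) ∧
    Q = Affine.Point.some (X.eval (algebraMap k L) x₀) (y₀ * Y.eval (algebraMap k L) x₀) h

/-- specialisation is additive outside a finite set -/
def S_SP : Prop := ∀ (k : Type) [Field k] [DecidableEq (RatFunc k)] (L : Type) [Field L]
  [DecidableEq L] [Algebra k L], (2 : k) ≠ 0 → (3 : k) ≠ 0 → ∀ R₁ R₂ : Gp k,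
    ∃ B : Set L, B.Finite ∧ ∀ x₀ y₀ : L, y₀ ^ 2 = x₀ ^ 3 + 6 * x₀ ^ 2 - 3 * x₀ → x₀ ∉ B →
      ∀ Q₁ Q₂ : Pt (6 : L) (-3), IsSp x₀ y₀ R₁ Q₁ → IsSp x₀ y₀ R₂ Q₂ →
        IsSp x₀ y₀ (R₁ + R₂) (Q₁ + Q₂)

/-- Frobenius on points -/
def IsFr {K : Type*} [Field K] (q : ℕ) (φ : Pt (6 : K) (-3) → Pt (6 : K) (-3)) : Prop :=
  φ 0 = 0 ∧ ∀ x y h, ∃ h', φ (Affine.Point.some x y h) = Affine.Point.some (x ^ q) (y ^ q) h'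

/-- Frobenius is additive -/
def S_FR : Prop := ∀ (q : ℕ) [Fact q.Prime] (K : Type) [Field K] [DecidableEq K] [CharP K q],
  ∃ φ : Pt (6 : K) (-3) →+ Pt (6 : K) (-3), IsFr q φ

/-- Frobenius is `± (2a + d √-3)` -/
def S_FROB : Prop := ∀ (q : ℕ) [Fact q.Prime], 3 < q → ¬ IsSquare (3 : ZMod q) →
  ∀ a d : ℤ, (q : ℤ) = 4 * a ^ 2 + 3 * d ^ 2 → ∃ ρ : ZMod q, ρ ^ 2 = -3 ∧
    ∀ (K : Type) [Field K] [DecidableEq K] [IsAlgClosed K] [Algebra (ZMod q) K]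
      (s φ : Pt (6 : K) (-3) →+ Pt (6 : K) (-3)), IsS (algebraMap (ZMod q) K ρ) s → IsFr q φ →
      ∃ ε : ℤ, (ε = 1 ∨ ε = -1) ∧ ∀ R, φ R = ε • ((2 * a) • R + d • s R)

end Pool.Agent.W670.LL
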